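import Pool.Agent.Y701.R1.Main

/-!
# The order of vanishing in pro-`ℓ` towers over `K(μ_ℓ)`, for a set of primes `ℓ` of positive density

Every elliptic curve `E` over a global function field `K` of characteristic at least `5`.
-/

set_option autoImplicit false
set_option linter.all false
set_option maxHeartbeats 4000000

open Polynomial FF Module Pool.Agent.W343.BSD Pool.Agent.W313.Gr

namespace Pool.Agent.Results.MP_48b749_nt.DensityOfProlTowers

/-- The set contains a positive proportion of the primes: there is a constant `c > 0` such that for all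
large `N` at least `c π(N)` of the primes up to `N` are in the set. -/
def PositiveDensity (A : Set ℕ) : Prop :=
  ∃ c : ℝ, 0 < c ∧ ∃ N₀ : ℕ, ∀ N : ℕ, N₀ ≤ N →
    c * Nat.primeCounting N ≤ Set.ncard {p : ℕ | p ≤ N ∧ p.Prime ∧ p ∈ A}

section defs

variable {k K : Type} [Field k] [Field K] [Algebra k K]

/-- The reduction of `E : y ^ 2 = x ^ 3 + a x + b` at `v` is not split multiplicative, and if it is
good, then `a_v` is not `2 √(q_v)`. -/
def IsAllowed (v : Place k K) (a b : K) : Prop :=
  (S.trace v a b : ℝ) ≠ 2 * √(Nat.card (S.Res v)) ∧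
    ¬ (v.ord (minDisc v a b) ≠ 0 ∧ S.trace v a b = 1)

open Classical in
/-- The number of the nonsingular points over the residue field of the reduction of `E` at `v`, with the
point at infinity: `q_v + 1 - a_v` for good and `q_v - a_v` for bad reduction. -/
noncomputable def points (v : Place k K) (a b : K) : ℤ :=
  (Nat.card (S.Res v) : ℤ) - S.trace v a b + if v.ord (minDisc v a b) = 0 then 1 else 0

/-- The place `w` of `L` lies over the place `v` of `K`, with the ramification index `e`. The fields of
constants `k` and `k'` may be different. -/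
def LiesOver {k' L : Type} [Field k'] [Field L] [Algebra k' L] [Algebra K L] (w : Place k' L)
    (v : Place k K) (e : ℕ) : Prop :=
  0 < e ∧ ∀ f : K, w.ord (algebraMap K L f) = e * v.ord f

end defs

section layer

variable {k K : Type} (k' K' k'' L : Type) [Field k] [Field K] [Algebra k K] [Field k'] [Field K']
  [Algebra k' K'] [Algebra k k'] [Algebra K K'] [Field k''] [Field L] [Algebra k'' L]
  [Algebra K' L]

/-- `K'` is the constant extension of `K` with the field of constants `k'`, whose degree divides
`(ℓ - 1) / 2`, and `L` is a Galois extension of `K'` of degree a power of `ℓ`, with the field of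
constants `k''`. A place `v'` of `K'` that ramifies in `L` lies over an element of `T`, or `ℓ` does
not divide the number of nonsingular points of the reduction of `E` at `v'`. -/
structure IsLayer (ℓ : ℕ) (T : Finset (Place k K)) (a b : K) : Prop where
  curve : IsCurveField k' K'
  constants : finrank K K' = finrank k k'
  degree : finrank k k' ∣ (ℓ - 1) / 2
  curveTop : IsCurveField k'' L
  galois : IsGalois K' L
  power : ∃ s : ℕ, finrank K' L = ℓ ^ s
  ramification : ∀ (v' : Place k' K') (w : Place k'' L) (e : ℕ), LiesOver w v' e → e ≠ 1 →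
    (∃ v ∈ T, ∃ e' : ℕ, LiesOver v' v e') ∨
      ¬ (ℓ : ℤ) ∣ points v' (algebraMap K K' a) (algebraMap K K' b)

end layer

/-- Let `K` be the function field of a curve over the field `k` with `q` elements, of characteristic at
least `5`, and let `E : y ^ 2 = x ^ 3 + a x + b` be an arbitrary elliptic curve over `K`, with
`L(T, E/K) = (1 - q T) ^ ρ G(T)`, where the polynomial `G` has no positive real zero. (All zeros of the
`L`-function have the absolute value `1 / q` by Deligne, so this says that `ρ` is the order of the zero
at `1 / q`.) Let `T` be a finite set of places of `K` at which the reduction is not split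
multiplicative and `a_v ≠ 2 √(q_v)`.

Then there is a set `Λ` with a positive proportion of the primes, such that for all `ℓ` in `Λ` the
number `q` is a square modulo `ℓ`, so that the degree of `k(μ_ℓ)` over `k` divides `(ℓ - 1) / 2`, and
the following holds. Let `K'` be a constant extension of `K` of degree dividing `(ℓ - 1) / 2`, with
the field of constants `k'`, and let `L` be any finite Galois extension of `K'` of degree a power of
`ℓ`, with the field of constants `k''`, such that the places of `K'` which ramify in `L` lie over places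
in `T`, or `ℓ` does not divide the number of nonsingular points of the reduction of `E` there. If
`L(T, E/L)` vanishes to the order `m` at the central point, then `[k'' : k'] m ≤ [L : K'] ρ`. If
`ρ = 0`, then the order is `0` for all these fields `L`, and if the rank is at most the order (Tate),
both are `0`, and the conjecture of Birch and Swinnerton-Dyer holds for `E` over `L`.

For example, `L` can be a field `K(μ_{ℓ ^ n}, f ^ (1 / ℓ ^ n))` for a function `f` with zeros and poles
in `T`, for all `n`. The set `Λ` depends on `E` and `T` only. -/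
theorem result (k K : Type) [Field k] [Finite k] [Field K] [Algebra k K] (h6 : (6 : k) ≠ 0)
    (hK : IsCurveField k K) (a b : K) (hE : 4 * a ^ 3 + 27 * b ^ 2 ≠ 0) (ρ : ℕ) (G : ℤ[X])
    (hL : S.Lfun k a b = (((1 - C (Nat.card k : ℤ) * X) ^ ρ * G : ℤ[X]) : PowerSeries ℤ))
    (hG : ∀ x : ℝ, 0 < x → aeval x G ≠ 0) (T : Finset (Place k K))
    (hT : ∀ v ∈ T, IsAllowed v a b) :
    ∃ Λ : Set ℕ, PositiveDensity Λ ∧ ∀ ℓ ∈ Λ, ℓ.Prime ∧ IsSquare ((Nat.card k : ℕ) : ZMod ℓ) ∧
      ∀ (k' K' k'' L : Type) [Field k'] [Finite k'] [Field K'] [Algebra k' K'] [Algebra k k']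
        [Algebra k K'] [Algebra K K'] [IsScalarTower k K K'] [IsScalarTower k k' K'] [Field k'']
        [Finite k''] [Field L] [Algebra k'' L] [Algebra k' k''] [Algebra k' L] [Algebra K' L]
        [IsScalarTower k' K' L] [IsScalarTower k' k'' L], IsLayer k' K' k'' L ℓ T a b →
        (∀ m : ℕ, S.VanishesTo k'' (algebraMap K' L (algebraMap K K' a))
          (algebraMap K' L (algebraMap K K' b)) m → finrank k' k'' * m ≤ finrank K' L * ρ) ∧
        (ρ = 0 → ∀ r : ℕ, HasOrder k'' (algebraMap K' L (algebraMap K K' a))
          (algebraMap K' L (algebraMap K K' b)) r →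
          r = 0 ∧ (rank (algebraMap K' L (algebraMap K K' a))
            (algebraMap K' L (algebraMap K K' b)) ≤ r →
            rank (algebraMap K' L (algebraMap K K' a))
              (algebraMap K' L (algebraMap K K' b)) = r)) := by
  have hFF : FF.IsFF k K := ⟨hK.essFiniteType, hK.trdeg_eq_one⟩
  obtain ⟨Λ, hΛ, h⟩ := Pool.Agent.Y701.R1.main h6 hK hE hL hG T hT
  refine ⟨Λ, hΛ, fun ℓ hℓ => ⟨(h ℓ hℓ).1, (h ℓ hℓ).2.1, ?_⟩⟩
  intro k' K' k'' L _ _ _ _ _ _ _ _ _ _ _ _ _ _ _ _ _ _ hlay
  have i1 : Module.Finite k k' := Module.Finite.of_finite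
  have i2 : FiniteDimensional K K' := Module.finite_of_finrank_pos (by
    rw [hlay.constants]; exact finrank_pos)
  have i3 : FiniteDimensional K' L := Module.finite_of_finrank_pos (by
    obtain ⟨s, hs⟩ := hlay.power
    rw [hs]; exact pow_pos (h ℓ hℓ).1.pos s)
  have i4 : IsGalois K' L := hlay.galois
  have i5 : Module.Finite k' k'' := Module.Finite.of_finite
  have key := (h ℓ hℓ).2.2 k' K' k'' L hlay.curve hlay.curveTop hlay.constants hlay.degree
    hlay.power hlay.ramification
  refine ⟨key, fun hρ r hr => ?_⟩
  have hr0 : r = 0 := by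
    obtain ⟨P, hP, hPr⟩ := hr
    have hq : Nat.card k'' ≠ 0 := Nat.card_pos.ne'
    obtain ⟨Q, hQ⟩ := Pool.Agent.TH943.KD.dvd_of_mult hq hPr
    have h1 := key r ⟨Q, by rw [hP, hQ]⟩
    rw [hρ, mul_zero, Nat.le_zero, Nat.mul_eq_zero] at h1
    exact h1.resolve_left finrank_pos.ne'
  refine ⟨hr0, fun hle => ?_⟩
  rw [hr0] at hle ⊢
  exact le_antisymm hle (by simp)

end Pool.Agent.Results.MP_48b749_nt.DensityOfProlTowers
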