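import Pool.Agent.Y701.R2.Fin

/-!
Rank equals order of vanishing, unbounded in the tower, for pullbacks of Legendre's curve to arbitrary
function fields.
-/

set_option autoImplicit false
set_option linter.all false
set_option maxHeartbeats 4000000

open Polynomial FF Module Pool.Agent.W343.BSD

namespace Pool.Agent.Results.MP_48b749_nt.LegendreTowersEveryBase

/-- The set contains a positive proportion of the primes: there is a constant `c > 0` such that for all
large `N` at least `c π(N)` of the primes up to `N` are in the set. -/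
def PositiveDensity (A : Set ℕ) : Prop :=
  ∃ c : ℝ, 0 < c ∧ ∃ N₀ : ℕ, ∀ N : ℕ, N₀ ≤ N →
    c * Nat.primeCounting N ≤ Set.ncard {p : ℕ | p ≤ N ∧ p.Prime ∧ p ∈ A}

/-- `c - 2` for even and `c - 1` for odd `c`. -/
def rho (c : ℕ) : ℕ := if Even c then c - 2 else c - 1

/-- The function `h` has exactly one zero, which is at a rational place; if `c` is odd, all poles of `h`
have odd order, and if `c` is even, `h` has exactly one pole, which is at a rational place. -/
structure Conditions (k : Type) {K : Type} [Field k] [Field K] [Algebra k K] (c : ℕ) (h : K) :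
    Prop where
  zero : ∃ v : Place k K, 0 < v.ord h ∧ S.deg v = 1 ∧ ∀ w : Place k K, 0 < w.ord h → w = v
  poleOdd : Odd c → ∀ w : Place k K, w.ord h < 0 → Odd (w.ord h)
  poleEven : Even c → ∃ v : Place k K, v.ord h < 0 ∧ S.deg v = 1 ∧
    ∀ w : Place k K, w.ord h < 0 → w = v

/-- The prime `ℓ` is odd, `c ℓ` divides `p ^ ν + 1` for some `ν`, and `ℓ` divides none of the values
`G(q ^ i)`. -/
def IsGoodPrime (p c q : ℕ) (G : ℤ[X]) (ℓ : ℕ) : Prop :=
  ℓ.Prime ∧ ℓ ≠ 2 ∧ (∃ ν : ℕ, c * ℓ ∣ p ^ ν + 1) ∧ ∀ i : ℕ, ¬ (ℓ : ℤ) ∣ G.eval ((q : ℤ) ^ i)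

/-- The first coefficient of `E_h`. -/
def coeffA {K : Type} [Field K] (c : ℕ) (h : K) : K := -(1 - h ^ c + (h ^ c) ^ 2) / 3

/-- The second coefficient of `E_h`. -/
def coeffB {K : Type} [Field K] (c : ℕ) (h : K) : K :=
  (1 + h ^ c) * (2 - h ^ c) * (2 * h ^ c - 1) / 27

/-- The curve `E_h : y ^ 2 = x (x - 1) (x - h ^ c)`, in short form `y ^ 2 = x ^ 3 + a x + b` (with `x`
replaced by `x + (1 + h ^ c) / 3`). -/
def curve {K : Type} [Field K] (c : ℕ) (h : K) : WeierstrassCurve K :=
  ⟨0, 0, 0, coeffA c h, coeffB c h⟩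

open Classical in
/-- `E_h` has `ρ` linearly independent points over `K`, and its `L`-function vanishes at `T = 1 / |k|`
to order at most `ρ`: if it is `(1 - |k| T) ^ M G(T)` with `G` in `ℤ[T]`, then `M ≤ ρ`. If it is a
polynomial with order of vanishing `r` and the rank is at most `r`, then the rank and `r` are equal
to `ρ`. -/
def RankAndOrder (k : Type) {K : Type} [Field k] [Finite k] [Field K] [Algebra k K] (ρ c : ℕ)
    (h : K) : Prop :=
  (∃ P : Fin ρ → (curve c h).toAffine.Point, LinearIndependent ℤ P) ∧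
  (∀ M : ℕ, S.VanishesTo k (coeffA c h) (coeffB c h) M → M ≤ ρ) ∧
  ∀ r : ℕ, Pool.Agent.W313.Gr.HasOrder k (coeffA c h) (coeffB c h) r →
    Module.rank ℤ (curve c h).toAffine.Point ≤ r →
      r = ρ ∧ Module.rank ℤ (curve c h).toAffine.Point = ρ

section layer

variable (k : Type) {K : Type} (k' K' k'' L : Type) [Field k] [Finite k] [Field K] [Algebra k K]
  [Field k'] [Field K'] [Algebra k' K'] [Algebra k k'] [Algebra K K'] [Field k''] [Field L]
  [Algebra k'' L] [Algebra k' k''] [Algebra K' L]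

/-- `K'` is the constant extension of `K` with the field of constants `k' = k(μ_ℓ)`, whose degree over
`k` is the order of `q = |k|` modulo `ℓ`, and `L` is generated over `K'` by `k''` and a root
`h ^ (1 / ℓ ^ n)`, where the field of constants `k''` contains the primitive roots of unity of order
`c ℓ ^ n` and has degree a power of `ℓ` over `k'`. -/
structure IsLayer (c ℓ n : ℕ) (h : K) : Prop where
  curve : IsCurveField k' K'
  constants : finrank K K' = finrank k k'
  degree : finrank k k' = orderOf ((Nat.card k : ℕ) : ZMod ℓ)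
  curveTop : IsCurveField k'' L
  power : ∃ s : ℕ, finrank k' k'' = ℓ ^ s
  unity : ∃ ζ : k'', IsPrimitiveRoot ζ (c * ℓ ^ n)
  root : ∃ u : L, u ^ ℓ ^ n = algebraMap K' L (algebraMap K K' h) ∧
    IntermediateField.adjoin K' ({u} ∪ Set.range (algebraMap k'' L)) = ⊤

end layer

/-- Let `K` be the function field of a curve over the field `k` with `q` elements, of characteristic
`p ≥ 5`, let `h` in `K` satisfy the conditions for `c ≥ 1` (for `c = 1`: exactly one zero, at a
rational place, and poles of odd order), and let `E : y ^ 2 = x (x - 1) (x - h ^ c)`, with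
`L(T, E/K) = (1 - q T) ^ ρ(c) G(T)` (for `c = 1` this is `G(T)`).

(1) For all odd primes `ℓ` such that `c ℓ` divides a number `p ^ ν + 1` and `ℓ` does not divide the
values `G(q ^ i)`, and for all `n`, over the layers `L` of the tower, which are the fields
`K(μ, h ^ (1 / ℓ ^ n))`, `E` has at least `ρ(c ℓ ^ n)` independent points and the order of vanishing of
`L(T, E/L)` at the central point is at most `ρ(c ℓ ^ n)`; if the rank is at most the order (Tate),
both are equal to `ρ(c ℓ ^ n)`, which tends to infinity with `n`.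

(2) If `q` is a square, `c` divides `p ^ ν + 1` for some odd `ν`, `G` has no positive real zero and the
square root of `p` is not in the field generated by `i` and the square roots of the zeros of `G`,
then a positive proportion of all primes `ℓ` have the properties in (1). -/
theorem result (p : ℕ) [Fact p.Prime] (hp : 5 ≤ p) (k K : Type) [Field k] [Finite k] [CharP k p]
    [Field K] [Algebra k K] (hK : IsCurveField k K) (c : ℕ) (hc : c ≠ 0) (h : K)
    (hh : Conditions k c h) (G : ℤ[X])
    (hL : S.Lfun k (coeffA c h) (coeffB c h) =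
      (((1 - C (Nat.card k : ℤ) * X) ^ rho c * G : ℤ[X]) : PowerSeries ℤ)) :
    (∀ ℓ : ℕ, IsGoodPrime p c (Nat.card k) G ℓ → ∀ (n : ℕ) (k' K' k'' L : Type) [Field k']
      [Finite k'] [Field K'] [Algebra k' K'] [Algebra k k'] [Algebra k K'] [Algebra K K']
      [IsScalarTower k K K'] [IsScalarTower k k' K'] [Field k''] [Finite k''] [Field L]
      [Algebra k'' L] [Algebra k' k''] [Algebra k' L] [Algebra K' L] [IsScalarTower k' K' L]
      [IsScalarTower k' k'' L], IsLayer k k' K' k'' L c ℓ n h →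
        RankAndOrder k'' (rho (c * ℓ ^ n)) c (algebraMap K' L (algebraMap K K' h))) ∧
    (IsSquare (Nat.card k) → (∃ ν : ℕ, Odd ν ∧ c ∣ p ^ ν + 1) →
      (∀ x : ℝ, 0 < x → aeval x G ≠ 0) → (∀ s : ℂ, s ^ 2 = (p : ℂ) →
        s ∉ IntermediateField.adjoin ℚ ({z : ℂ | aeval (z ^ 2) G = 0} ∪ {Complex.I})) →
      PositiveDensity {ℓ : ℕ | IsGoodPrime p c (Nat.card k) G ℓ}) := by
  classical
  have hFF : FF.IsFF k K := ⟨hK.essFiniteType, hK.trdeg_eq_one⟩
  have h6 : (6 : k) ≠ 0 := Pool.Agent.TH958.T4.six_ne (Fact.out : p.Prime) hp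
  have hcoef : ∀ {F : Type} [Field F], (3 : F) ≠ 0 → ∀ (c : ℕ) (h : F),
      Pool.Agent.W309.RK.aOf 1 (h ^ c) = coeffA c h ∧
      Pool.Agent.W309.RK.bOf 1 (h ^ c) = coeffB c h := by
    intro F _ h3 c h
    have h27 : (27 : F) ≠ 0 := by
      have : (27 : F) = 3 ^ 3 := by norm_num
      rw [this]
      exact pow_ne_zero 3 h3
    constructor
    · unfold Pool.Agent.W309.RK.aOf coeffA
      field_simp
      ring
    · unfold Pool.Agent.W309.RK.bOf coeffB
      field_simp
      ring
  have h3K : (3 : K) ≠ 0 := (Pool.Agent.Y701.R2.nums (K := K) h6).2.2.2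
  have hA : Pool.Agent.Y701.R2.Adm k c h := ⟨hh.zero, hh.poleOdd, hh.poleEven⟩
  obtain ⟨ea, eb⟩ := hcoef h3K c h
  rw [← ea, ← eb] at hL
  refine ⟨?_, ?_⟩
  · rintro ℓ ⟨hℓ, hℓ2, hν, hG⟩ n k' K' k'' L _ _ _ _ _ _ _ _ _ _ _ _ _ _ _ _ _ _ hlay
    have i1 : Module.Finite k k' := Module.Finite.of_finite
    have i2 : FiniteDimensional K K' := Module.finite_of_finrank_pos (by
      rw [hlay.constants]; exact finrank_pos)
    obtain ⟨ζ, hζ⟩ := hlay.unity
    obtain ⟨u, hu, hgen⟩ := hlay.root
    obtain ⟨t1, t2⟩ := Pool.Agent.Y701.R2.tower (k := k) (K := K) (k' := k') (K' := K')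
      (k'' := k'') (L := L) h6 hK hc hA hL hℓ hℓ2 hν hG n hlay.curve hlay.constants hlay.degree
      hlay.curveTop hlay.power hζ hu hgen
    have h3L : (3 : L) ≠ 0 := by
      have : (3 : L) = algebraMap K' L (algebraMap K K' 3) := by rw [map_ofNat, map_ofNat]
      rw [this]
      exact (_root_.map_ne_zero _).2 ((_root_.map_ne_zero _).2 h3K)
    obtain ⟨fa, fb⟩ := hcoef h3L c (algebraMap K' L (algebraMap K K' h))
    have ga : algebraMap K' L (algebraMap K K' (Pool.Agent.W309.RK.aOf 1 (h ^ c))) =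
        coeffA c (algebraMap K' L (algebraMap K K' h)) := by
      rw [← fa]
      unfold Pool.Agent.W309.RK.aOf
      simp only [map_sub, map_add, map_mul, map_pow, map_neg, map_div₀, map_ofNat, map_one]
    have gb : algebraMap K' L (algebraMap K K' (Pool.Agent.W309.RK.bOf 1 (h ^ c))) =
        coeffB c (algebraMap K' L (algebraMap K K' h)) := by
      rw [← fb]
      unfold Pool.Agent.W309.RK.bOf
      simp only [map_sub, map_add, map_mul, map_pow, map_neg, map_div₀, map_ofNat, map_one]
    rw [ga, gb] at t1 t2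
    exact ⟨t1, t2, fun r hr hle => Pool.Agent.TH958.T5.equalities t1 t2 r hr hle⟩
  · intro hsq hν hreal hsp
    have h2 : ∃ v : Place k K, 0 < v.ord h := by
      obtain ⟨v, hv, -⟩ := hh.zero
      exact ⟨v, hv⟩
    obtain ⟨v0, hv0⟩ := h2
    have hh0 : h ≠ 0 := by
      rintro rfl
      rw [v0.ord_zero] at hv0
      omega
    have hv0c : 0 < v0.ord (h ^ c) := by
      rw [v0.ord_pow]
      exact mul_pos (by exact_mod_cast Nat.pos_of_ne_zero hc) hv0
    have hΔ : 4 * Pool.Agent.W309.RK.aOf 1 (h ^ c) ^ 3 +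
        27 * Pool.Agent.W309.RK.bOf 1 (h ^ c) ^ 2 ≠ 0 := by
      rw [Pool.Agent.Y701.R2.disc_leg h6]
      exact neg_ne_zero.2 (pow_ne_zero 2 (mul_ne_zero (pow_ne_zero c hh0)
        (Pool.Agent.TH958.T4.ord_one_sub' v0 hv0c).1))
    have hG0 : G.coeff 0 ≠ 0 := by
      have h4 := Pool.Agent.W313.Gr.unit_coeff (k := k) hΔ
      rw [hL, ← PowerSeries.coeff_zero_eq_constantCoeff_apply, Polynomial.coeff_coe,
        mul_coeff_zero] at h4
      exact right_ne_zero_of_mul h4.ne_zero
    exact Pool.Agent.Y701.R2.dens (Fact.out : p.Prime) hsq hc hν hG0 hreal hsp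

end Pool.Agent.Results.MP_48b749_nt.LegendreTowersEveryBase
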