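import Pool.Agent.Y164.PS.Cla

/-!
# A positive proportion of the quadratic twists over `k(t)` has finite Mordell-Weil group and trivial
# 2-primary part of the Tate-Shafarevich group

Let `k` be a finite field of characteristic different from 2 in which `-1` is a square, and let `a`,
`b` be coprime polynomials over `k` such that `a`, `b`, `a - b` have the same degree `N` and none of
`a b`, `a (a - b)`, `b (a - b)` is a constant multiple of a square. Let

`E_D : y ^ 2 = x (x - a D) (x - b D)`

be the quadratic twists of `E = E_1`, an elliptic curve over `K = k(t)` with all its points of order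
two rational. For a monic squarefree `D`, the condition in `NonSplitTwists` says that `D` is prime to
`a b (a - b)` and `E_D` has non-split multiplicative reduction at all the places `Q ≠ ∞` at which `E` has
bad reduction: the reduction is `y ^ 2 = x ^ 2 (x - b D)` for `Q ∣ a`, `y ^ 2 = x ^ 2 (x - a D)` for
`Q ∣ b`, and `y ^ 2 = x (x - a D) ^ 2` for `Q ∣ a - b`.

Theorem. As `n → ∞` with `n + N` odd, these `D` of degree `n` are a positive proportion of the monic
polynomials of degree `n`, and for at least a third of them (precisely: at least `1 / 3 - ε` of them,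
for all `ε > 0` and `n ≥ n(ε)`) the group `E_D(K)` is finite and the 2-primary part of the
Tate-Shafarevich group of `E_D` over `K` is zero.
-/

set_option autoImplicit false
set_option linter.all false

namespace Pool.Agent.Results.MP_48b749_nt.PositiveProportionOfTwists

open Polynomial Filter Pool.Agent.TH115.GD
open scoped Classical

/-- The polynomial `f` is not a square modulo `Q` (in particular it is not divisible by `Q`). -/
def NonSquareMod {k : Type} [Field k] (Q f : k[X]) : Prop := ∀ h : k[X], ¬ Q ∣ h ^ 2 - f

/-- The polynomial `f` is not a constant multiple of a square. -/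
def NotConstSquare {k : Type} [Field k] (f : k[X]) : Prop := ∀ (c : k) (h : k[X]), f ≠ C c * h ^ 2

/-- The monic squarefree polynomials `D` of degree `n` for which `b D` is not a square modulo the prime
divisors of `a` and `a D` is not a square modulo the prime divisors of `b (a - b)`. -/
def NonSplitTwists {k : Type} [Field k] (a b : k[X]) (n : ℕ) : Set k[X] :=
  {D | D.Monic ∧ D.natDegree = n ∧ Squarefree D ∧
    (∀ Q : k[X], Irreducible Q → Q ∣ a → NonSquareMod Q (b * D)) ∧
    (∀ Q : k[X], Irreducible Q → Q ∣ b * (a - b) → NonSquareMod Q (a * D))}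

/-- The curve `E_D : y ^ 2 = x (x - a D) (x - b D)` over `K = k(t)`. -/
noncomputable def twist {k : Type} [Field k] (K : Type) [Field K] [Algebra k[X] K]
    (a b D : k[X]) : WeierstrassCurve K :=
  crv (algebraMap k[X] K (a * D)) (algebraMap k[X] K (b * D))

theorem result (k : Type) [Field k] [Finite k] (h2 : (2 : k) ≠ 0) (hi : IsSquare (-1 : k))
    (K : Type) [Field K] [Algebra k[X] K] [IsFractionRing k[X] K] (a b : k[X]) (N : ℕ)
    (hco : IsCoprime a b) (ha : a.natDegree = N) (hb : b.natDegree = N)
    (hab : (a - b).natDegree = N) (h₁ : NotConstSquare (a * b))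
    (h₂ : NotConstSquare (a * (a - b))) (h₃ : NotConstSquare (b * (a - b))) :
    (∃ c : ℝ, 0 < c ∧ ∀ᶠ n : ℕ in atTop, Odd (n + N) →
      c * (Nat.card k : ℝ) ^ n ≤ ((NonSplitTwists a b n).ncard : ℝ)) ∧
    ∀ ε : ℝ, 0 < ε → ∀ᶠ n : ℕ in atTop, Odd (n + N) →
      (1 / 3 - ε) * ((NonSplitTwists a b n).ncard : ℝ) ≤
        (({D ∈ NonSplitTwists a b n |
          Finite (Pt (twist K a b D) K) ∧ ShaTwo k (twist K a b D)}).ncard : ℝ) :=
  Pool.Agent.Y164.PS.final h2 hi K a b N hco ha hb hab h₁ h₂ h₃

end Pool.Agent.Results.MP_48b749_nt.PositiveProportionOfTwists
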