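import Pool.Agent.Y701.TE.Final

/-!
Elliptic curves over `k(t)` with a rational subgroup of order three: nonvanishing of the `L`-function
at the central point over all the finite Galois extensions of `k(t)` of degree a power of three which
are unramified outside a given finite set of places, for a positive proportion of the quadratic twists.
-/

set_option autoImplicit false
set_option linter.all false
set_option maxHeartbeats 4000000

open Polynomial FF Module Pool.Agent.W343.BSD

open Pool.Agent.Y686.EC (twists HasSubgroup delta IsOver)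

namespace Pool.Agent.Results.MP_48b749_nt.ProThreeExtensions

section defs

/-- The place `w` of `L` lies over the place `v` of `K`, with the ramification index `e`. The fields of
constants `k` and `k'` may be different. -/
def LiesOver {k K k' L : Type} [Field k] [Field K] [Algebra k K] [Field k'] [Field L]
    [Algebra k' L] [Algebra K L] (w : Place k' L) (v : Place k K) (e : ℕ) : Prop :=
  0 < e ∧ ∀ f : K, w.ord (algebraMap K L f) = e * v.ord f

/-- `L` is a Galois extension of `k(t)` of degree a power of three with field of constants `k'`; the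
places over `v` have the ramification index `e v`, which is `1` outside the finite set `B`. -/
structure IsLayer (k k' L : Type) [Field k] [Field k'] [Field L] [Algebra k' L] [Algebra k k']
    [Algebra (RatFunc k) L] (e : Place k (RatFunc k) → ℕ) (B : Finset (Place k (RatFunc k))) :
    Prop where
  curve : IsCurveField k' L
  galois : IsGalois (RatFunc k) L
  power : ∃ s : ℕ, finrank (RatFunc k) L = 3 ^ s
  index : ∀ (v : Place k (RatFunc k)) (w : Place k' L) (n : ℕ), LiesOver w v n → n = e v
  unramified : ∀ v, v ∉ B → e v = 1

/-- The place `v` of `k(t)` splits in `k(t)(√D)`: `D` is a square in the completion at `v`. -/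
def Splits {k : Type} [Field k] (D : k[X]) (v : Place k (RatFunc k)) : Prop :=
  ∃ s : RatFunc k, algebraMap k[X] (RatFunc k) D = s ^ 2 ∨
    v.ord (algebraMap k[X] (RatFunc k) D) < v.ord (algebraMap k[X] (RatFunc k) D - s ^ 2)

/-- Let `q` be the number of the elements of `k`. The `L`-function over `L` of
`y ^ 2 = x ^ 3 + a x + b` has no zero at the central point `T = 1 / q`: if it is `(1 - q T) ^ M` times
an integral polynomial, then `M = 0`; if it is an integral polynomial with a zero of order exactly `r`
at `1 / q`, then `r = 0`, and if moreover the rank is at most `r` (Tate), then the rank is `r`. -/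
def CentralZero (k : Type) {L : Type} [Field k] [Finite k] [Field L] [Algebra k L] (a b : L) : Prop :=
  (∀ M : ℕ, S.VanishesTo k a b M → M = 0) ∧ ∀ r : ℕ, Pool.Agent.W313.Gr.HasOrder k a b r → r = 0 ∧
    (Pool.Agent.W313.Gr.rank a b ≤ r → Pool.Agent.W313.Gr.rank a b = r)

open Classical in
/-- The bound over all the Galois extensions of `k(t)` of degree a power of three for the curve
`y ^ 2 = x ^ 3 + a x + b`. -/
def BoundOver {k : Type} [Field k] [Finite k] (D : k[X]) (a b : RatFunc k) : Prop :=
  ∀ (k' L : Type) [Field k'] [Finite k'] [Field L] [Algebra k' L] [Algebra k k'] [Algebra k L]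
    [Algebra (RatFunc k) L] [IsScalarTower k (RatFunc k) L] [IsScalarTower k k' L]
    (e : Place k (RatFunc k) → ℕ) (B : Finset (Place k (RatFunc k))), IsLayer k k' L e B →
    (∀ M : ℕ, S.VanishesTo k' (algebraMap (RatFunc k) L a) (algebraMap (RatFunc k) L b) M →
      finrank k k' * M ≤ 2 * ∑ v ∈ B.filter (Splits D),
        (finrank (RatFunc k) L - finrank (RatFunc k) L / e v) * 3 ^ padicValNat 3 (S.deg v)) ∧
    ((∀ v, e v ≠ 1 → ¬ Splits D v) →
      CentralZero k' (algebraMap (RatFunc k) L a) (algebraMap (RatFunc k) L b))

/-- The `L`-function of `y ^ 2 = x ^ 3 + a x + b` has no zero at the central point over all the Galois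
extensions of `k(t)` of degree a power of three which are unramified outside `T`. -/
def ZeroOver {k : Type} [Field k] [Finite k] (T : Finset (Place k (RatFunc k)))
    (a b : RatFunc k) : Prop :=
  ∀ (k' L : Type) [Field k'] [Finite k'] [Field L] [Algebra k' L] [Algebra k k'] [Algebra k L]
    [Algebra (RatFunc k) L] [IsScalarTower k (RatFunc k) L] [IsScalarTower k k' L]
    (e : Place k (RatFunc k) → ℕ), IsLayer k k' L e T →
      CentralZero k' (algebraMap (RatFunc k) L a) (algebraMap (RatFunc k) L b)

end defs

open Classical in
/-- from the bound -/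
theorem boundOver {k : Type} [Field k] [Finite k] (h2 : (2 : k) ≠ 0) (h3 : (3 : k) ≠ 0)
    {m D : k[X]} {g : ℕ} (hD : D ∈ twists g m) (hBad : ¬ Pool.Agent.Y711.Bad D) {a b : RatFunc k}
    (h : IsOver D a b) : BoundOver D a b := by
  intro k' L _ _ _ _ _ _ _ _ _ e B hL
  obtain ⟨s, hs⟩ := hL.power
  have key : ∀ M : ℕ, S.VanishesTo k' (algebraMap (RatFunc k) L a) (algebraMap (RatFunc k) L b) M →
      finrank k k' * M ≤ 2 * ∑ v ∈ B.filter (Splits D),
        (finrank (RatFunc k) L - finrank (RatFunc k) L / e v) * 3 ^ padicValNat 3 (S.deg v) :=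
    fun M hM => by
      simp only [S.deg_eq]
      exact Pool.Agent.Y701.TE.over_bound h2 h3 hD hBad h hL.curve hL.galois hs hL.index B
        hL.unramified hM
  refine ⟨key, fun hns => ?_⟩
  have hzero : ∀ M : ℕ, S.VanishesTo k' (algebraMap (RatFunc k) L a)
      (algebraMap (RatFunc k) L b) M → M = 0 := by
    intro M hM
    have h1 := key M hM
    have h4 : ∑ v ∈ B.filter (Splits D),
        (finrank (RatFunc k) L - finrank (RatFunc k) L / e v) * 3 ^ padicValNat 3 (S.deg v) = 0 := by
      refine Finset.sum_eq_zero fun v hv => ?_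
      by_cases hv1 : e v = 1
      · rw [hv1, Nat.div_one, Nat.sub_self, zero_mul]
      · exact absurd (Finset.mem_filter.1 hv).2 (hns v hv1)
    rw [h4, mul_zero, Nat.le_zero, Nat.mul_eq_zero] at h1
    have i5 : Module.Finite k k' := Module.Finite.of_finite
    exact h1.resolve_left finrank_pos.ne'
  refine ⟨hzero, fun r hr => ?_⟩
  have hr0 : r = 0 := by
    obtain ⟨P, hP, hPr⟩ := hr
    obtain ⟨Q, hQ⟩ := Pool.Agent.TH943.KD.dvd_of_mult (Nat.card_pos (α := k')).ne' hPr
    exact hzero r ⟨Q, hP.trans (by rw [hQ])⟩
  refine ⟨hr0, fun hle => ?_⟩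
  rw [hr0] at hle ⊢
  exact le_antisymm hle (by simp)

/-- Let `k` be a finite field of characteristic at least five.

(1) Let `m` be a monic squarefree polynomial and `c < 1 / 2`. For large `g` at least a proportion `c` of
the monic squarefree multiples `D` of `m` of degree `2 g + 1` have the following property: for ALL
elliptic curves `E` over `k(t)` over `D` (with a `k(t)`-rational subgroup of order three whose points
generate `k(t)(√D)`, and with allowed reduction outside `D`) and for ALL finite Galois extensions `L` of
`k(t)` of degree a power of three the order of vanishing of `L(T, E / L)` at the central point,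
multiplied by the degree of the constant field extension, is at most twice the sum of
`([L : k(t)] - [L : k(t)] / e_v)` times the largest power of three dividing `deg v`, over the ramified
places `v` of `k(t)` which split in `k(t)(√D)`. If there are no such places, then `L(T, E / L)` has no
zero at the central point.

(2) For every elliptic curve `E` over `k(t)` with a `k(t)`-rational subgroup of order three and every
finite set `T` of places of `k(t)`, a positive proportion of all monic squarefree `D` of odd degree is
such that for the twist of `E` by `δ D` the `L`-function has no zero at the central point over ALL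
finite Galois extensions of `k(t)` of degree a power of three unramified outside `T`. -/
theorem result (k : Type) [Field k] [Finite k] (h2 : (2 : k) ≠ 0) (h3 : (3 : k) ≠ 0) :
    (∀ m : k[X], m.Monic → Squarefree m → ∀ c : ℝ, c < 1 / 2 → ∃ N : ℕ, ∀ g : ℕ, N ≤ g →
      c * (twists g m).ncard ≤
        {D : k[X] | D ∈ twists g m ∧ ∀ a b : RatFunc k, IsOver D a b → BoundOver D a b}.ncard) ∧
    (∀ a b x : RatFunc k, HasSubgroup a b x → ∀ T : Finset (Place k (RatFunc k)),
      ∃ ρ : ℝ, 0 < ρ ∧ ∃ N : ℕ, ∀ g : ℕ, N ≤ g → ρ * (twists g (1 : k[X])).ncard ≤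
        {D : k[X] | D ∈ twists g 1 ∧
          ZeroOver T ((algebraMap k[X] (RatFunc k) D * delta a b x) ^ 2 * a)
            ((algebraMap k[X] (RatFunc k) D * delta a b x) ^ 3 * b)}.ncard) := by
  classical
  refine ⟨?_, ?_⟩
  · intro m hm hs c hc
    obtain ⟨N, hN⟩ := Pool.Agent.Y701.TE.nb_half h2 hm hs hc
    refine ⟨N, fun g hg => (hN g hg).trans ?_⟩
    have h4 : (Pool.Agent.Y701.TE.nb g m).ncard ≤ {D : k[X] | D ∈ twists g m ∧
        ∀ a b : RatFunc k, IsOver D a b → BoundOver D a b}.ncard := by
      apply Set.ncard_le_ncard
      · rintro D ⟨hD, hD2⟩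
        exact ⟨hD, fun a b h => boundOver h2 h3 hD hD2 h⟩
      · exact (Pool.Agent.Y686.EC.twists_finite g m).subset fun D hD => hD.1
    exact_mod_cast h4
  · intro a b x h T
    obtain ⟨m, hm, hs, hg, hT⟩ := Pool.Agent.Y701.TE.exists_m (h.twist h.delta_ne).disc T
    obtain ⟨ρ, hρ, N, hN⟩ := Pool.Agent.Y701.TE.nb_proportion h2 hm hs
    refine ⟨ρ, hρ, N, fun g hg2 => (hN g hg2).trans ?_⟩
    have h4 : (Pool.Agent.Y701.TE.nb g m).ncard ≤ {D : k[X] | D ∈ twists g 1 ∧
          ZeroOver T ((algebraMap k[X] (RatFunc k) D * delta a b x) ^ 2 * a)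
            ((algebraMap k[X] (RatFunc k) D * delta a b x) ^ 3 * b)}.ncard := by
      apply Set.ncard_le_ncard
      · rintro D ⟨hD, hD2⟩
        refine ⟨⟨hD.1, hD.2.1, hD.2.2.1, one_dvd _⟩, ?_⟩
        intro k' L _ _ _ _ _ _ _ _ _ e hL
        have h5 := boundOver h2 h3 hD hD2
          (Pool.Agent.Y686.EC.isOver_twist hm.ne_zero hD.1.ne_zero hD.2.2.2 h hg)
        refine (h5 k' L e T hL).2 fun v hv => ?_
        have hvT : v ∈ T := by
          by_contra hvT
          exact hv (hL.unramified v hvT)
        exact hT v hvT D hD.2.2.1 ⟨g, hD.2.1⟩ hD.2.2.2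
      · exact (Pool.Agent.Y686.EC.twists_finite g 1).subset fun D hD => hD.1
    exact_mod_cast h4

end Pool.Agent.Results.MP_48b749_nt.ProThreeExtensions
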